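import Pool.Agent.K4H58.BS.Rec

/-!
The height of the critical beta-splitting tree: the lower bound `c H_N² + C H_N - D` for the mean,
with `c > 6/π²`.
-/

set_option autoImplicit false

namespace Pool.Agent.K4H58.BS

open Finset BinaryTree Pool.Agent.R982.CBS Filter Topology

/-- the drift coefficient of the greedy chain -/
noncomputable def sg (N : ℕ) : ℝ := H2 N - H2 (N / 2) / 2

/-- the second moment coefficient of the greedy chain -/
noncomputable def ta (N : ℕ) : ℝ :=
  ∑ i ∈ range N, 1 / ((i : ℝ) + 1) * (H N - H (max i (N - 1 - i))) ^ 2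

lemma sg_ge {N : ℕ} (hN : 1 ≤ N) : 1 / 2 ≤ sg N := by
  have h1 := H2_mono (Nat.div_le_self N 2)
  have h2 := one_le_H2 hN
  unfold sg
  linarith

lemma sg_le (N : ℕ) : sg N ≤ 2 := by
  have h1 := H2_le_two N
  have h2 : 0 ≤ H2 (N / 2) := by rw [← H2_zero]; exact H2_mono (Nat.zero_le _)
  unfold sg
  linarith

lemma ta_nonneg (N : ℕ) : 0 ≤ ta N := sum_nonneg fun i _ => by positivity

lemma sg_tendsto : Tendsto sg atTop (𝓝 (Real.pi ^ 2 / 12)) := by
  have h1 : Tendsto (fun N : ℕ => H2 (N / 2)) atTop (𝓝 (Real.pi ^ 2 / 6)) :=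
    H2_tendsto.comp (Nat.tendsto_div_const_atTop (by norm_num))
  have h2 := H2_tendsto.sub (h1.div_const 2)
  unfold sg
  convert h2 using 2
  ring

/-- the drift of the potential `c H² + C H` is at least `-(1 + δ)` -/
lemma exists_C {c δ : ℝ} (hc : 0 < c) (hδ : 0 ≤ δ) (h : 2 * c * (Real.pi ^ 2 / 12) < 1 + δ) :
    ∃ C : ℝ, C ≤ 0 ∧ ∀ N, 1 ≤ N → c * H N ^ 2 + C * H N - δ ≤
      1 + ∑ i ∈ range N, W N i * (c * H (max i (N - 1 - i)) ^ 2 + C * H (max i (N - 1 - i))) := by
  have h1 : ∀ᶠ N in atTop, 2 * c * sg N < 1 + δ :=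
    (sg_tendsto.const_mul _).eventually (eventually_lt_nhds h)
  obtain ⟨N0, hN0⟩ := eventually_atTop.mp h1
  have hH0 := H_nonneg N0
  refine ⟨-(2 * c * 2 * H N0 / (1 / 2)), ?_, fun N hN => ?_⟩
  · rw [neg_nonpos]
    positivity
  set C : ℝ := -(2 * c * 2 * H N0 / (1 / 2)) with hC
  have hC0 : C ≤ 0 := by
    rw [hC, neg_nonpos]
    positivity
  have hsum := chain_G.sum_F c C N hN
  have hsum' : ∑ i ∈ range N, W N i * (c * H (max i (N - 1 - i)) ^ 2 + C * H (max i (N - 1 - i))) =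
      c * H N ^ 2 + C * H N - (2 * c * sg N - c * ta N / H N + C * sg N / H N) := hsum
  rw [hsum']
  have hH := H_pos hN
  have hs := sg_ge hN
  have hs2 := sg_le N
  have ht : 0 ≤ c * ta N / H N := div_nonneg (mul_nonneg hc.le (ta_nonneg N)) hH.le
  suffices hh : 2 * c * sg N + C * sg N / H N ≤ 1 + δ by linarith
  by_cases hcase : N0 ≤ N
  · have h3 := hN0 N hcase
    have h4 : C * sg N / H N ≤ 0 :=
      div_nonpos_of_nonpos_of_nonneg (mul_nonpos_of_nonpos_of_nonneg hC0 (by linarith)) hH.le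
    linarith
  · have h3 : H N ≤ H N0 := H_mono (by omega)
    have h4 : C * sg N / H N ≤ -(2 * c * 2) := by
      rw [div_le_iff₀ hH, hC]
      have e1 : 2 * c * 2 * H N ≤ 2 * c * 2 * H N0 := by gcongr
      have e2 : 2 * c * 2 * H N0 * 1 ≤ 2 * c * 2 * H N0 / (1 / 2) * sg N := by
        rw [div_mul_eq_mul_div, le_div_iff₀ (by norm_num)]
        have : 0 ≤ 2 * c * 2 * H N0 := by positivity
        nlinarith
      linarith
    have h5 : 2 * c * sg N ≤ 2 * c * 2 := by gcongr
    linarith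

lemma W_ge {N i : ℕ} (hi : i < N) : 2 / (H N * ((N : ℝ) + 1)) ≤ W N i := by
  have hH := H_pos (by omega : 1 ≤ N)
  have h5 : (0 : ℝ) < (N : ℝ) - i := by
    have : (i : ℝ) < N := by exact_mod_cast hi
    linarith
  have h6 : (0 : ℝ) < (i : ℝ) + 1 := by positivity
  have h7 : (0 : ℝ) < (N : ℝ) + 1 := by positivity
  unfold W
  rw [div_add_div _ _ h6.ne' h5.ne', div_mul_div_comm, div_le_div_iff₀ (by positivity)
    (by positivity)]
  have h8 : (1 * ((N : ℝ) - i) + ((i : ℝ) + 1) * 1) = N + 1 := by ring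
  rw [h8]
  have h9 : 4 * (((i : ℝ) + 1) * ((N : ℝ) - i)) ≤ ((N : ℝ) + 1) ^ 2 := by
    nlinarith [sq_nonneg (((i : ℝ) + 1) - ((N : ℝ) - i))]
  nlinarith [mul_le_mul_of_nonneg_left h9 hH.le]

/-- one step of the greedy chain goes below `2/3` with probability at least `2 / (3 H_m)` -/
lemma step_prob {m b N : ℕ} (hb : 2 * m ≤ 3 * b + 2) (hbN : b < N) (hN : N ≤ m) :
    2 / (3 * H m) ≤ ∑ i ∈ range N, W N i * (if max i (N - 1 - i) ≤ b then 1 else 0) := by
  have hH := H_pos (by omega : 1 ≤ N)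
  have hHm := H_mono hN
  have hsub : Finset.Icc (N - 1 - b) b ⊆ range N := by
    intro i hi
    rw [Finset.mem_Icc] at hi
    rw [mem_range]
    omega
  have h1 : ∑ i ∈ Finset.Icc (N - 1 - b) b, 2 / (H N * ((N : ℝ) + 1)) ≤
      ∑ i ∈ range N, W N i * (if max i (N - 1 - i) ≤ b then 1 else 0) := by
    refine le_trans ?_ (sum_le_sum_of_subset_of_nonneg hsub fun i hi _ =>
      mul_nonneg (W_nonneg (mem_range.mp hi)) (by split_ifs <;> norm_num))
    refine sum_le_sum fun i hi => ?_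
    have hi' := mem_range.mp (hsub hi)
    rw [Finset.mem_Icc] at hi
    rw [if_pos (by rw [max_le_iff]; omega), mul_one]
    exact W_ge hi'
  refine le_trans ?_ h1
  rw [sum_const, Nat.card_Icc, nsmul_eq_mul]
  have h2 : (N : ℝ) + 2 ≤ 3 * ((b + 1 - (N - 1 - b) : ℕ) : ℝ) := by
    have : N + 2 ≤ 3 * (b + 1 - (N - 1 - b)) := by omega
    exact_mod_cast this
  have hNp : (0 : ℝ) < (N : ℝ) + 1 := by positivity
  have hmp : (0 : ℝ) < H m := lt_of_lt_of_le hH hHm
  calc 2 / (3 * H m) ≤ 2 / (3 * H N) := by gcongr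
    _ ≤ ((N : ℝ) + 2) / 3 * (2 / (H N * ((N : ℝ) + 1))) := by
        rw [div_mul_div_comm, div_le_div_iff₀ (by positivity) (by positivity)]
        nlinarith
    _ ≤ ((b + 1 - (N - 1 - b) : ℕ) : ℝ) * (2 / (H N * ((N : ℝ) + 1))) := by
        gcongr
        linarith

lemma P_ge {m b : ℕ} (hb : 2 * m ≤ 3 * b + 2) (hbm : b < m) (K : ℕ) : ∀ N, N ≤ m →
    1 - (1 - 2 / (3 * H m)) ^ K ≤ P b K N := by
  have hHm := H_one_le (by omega : 1 ≤ m)
  have hw0 : 0 < 2 / (3 * H m) := by positivity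
  have hw1 : 2 / (3 * H m) ≤ 1 := by
    rw [div_le_one (by positivity)]
    linarith
  have hpow : ∀ K : ℕ, 0 ≤ (1 - 2 / (3 * H m)) ^ K := fun K => pow_nonneg (by linarith) K
  induction K with
  | zero =>
    intro N _
    rw [pow_zero, sub_self]
    exact P_nonneg _ _ _
  | succ K ih =>
    intro N hN
    by_cases hNb : N ≤ b
    · rw [P_of_le hNb]
      linarith [hpow (K + 1)]
    · rw [P, if_neg hNb]
      have hN1 : 1 ≤ N := by omega
      have h1 := step_prob hb (by omega : b < N) hN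
      have h2 : ∑ i ∈ range N, W N i * ((1 - (1 - 2 / (3 * H m)) ^ K) +
          (1 - 2 / (3 * H m)) ^ K * (if max i (N - 1 - i) ≤ b then 1 else 0)) ≤
          ∑ i ∈ range N, W N i * P b K (max i (N - 1 - i)) := by
        refine sum_le_sum fun i hi => ?_
        have hi' := mem_range.mp hi
        refine mul_le_mul_of_nonneg_left ?_ (W_nonneg hi')
        split_ifs with h
        · rw [P_of_le h]
          linarith
        · have := ih (max i (N - 1 - i)) (by omega)
          linarith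
      have h3 : ∑ i ∈ range N, W N i * ((1 - (1 - 2 / (3 * H m)) ^ K) +
          (1 - 2 / (3 * H m)) ^ K * (if max i (N - 1 - i) ≤ b then 1 else 0)) =
          (1 - (1 - 2 / (3 * H m)) ^ K) + (1 - 2 / (3 * H m)) ^ K *
            ∑ i ∈ range N, W N i * (if max i (N - 1 - i) ≤ b then 1 else 0) := by
        have h4 : (1 - (1 - 2 / (3 * H m)) ^ K) =
            ∑ i ∈ range N, W N i * (1 - (1 - 2 / (3 * H m)) ^ K) := by
          rw [← sum_mul, W_sum N hN1, one_mul]
        conv_rhs => rw [h4]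
        rw [mul_sum, ← sum_add_distrib]
        exact sum_congr rfl fun i _ => by ring
      have h5 := mul_le_mul_of_nonneg_left h1 (hpow K)
      have h6 : (1 - 2 / (3 * H m)) ^ (K + 1) =
          (1 - 2 / (3 * H m)) ^ K - (1 - 2 / (3 * H m)) ^ K * (2 / (3 * H m)) := by ring
      linarith

/-- after `K ≥ H_m / 20` steps the chain is below `2 m / 3` with probability at least `1 / 31` -/
lemma P_ge' {m b K : ℕ} (hb : 2 * m ≤ 3 * b + 2) (hbm : b < m) (hK : H m ≤ 20 * K) :
    1 / 31 ≤ P b K m := by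
  have hHm := H_one_le (by omega : 1 ≤ m)
  refine le_trans ?_ (P_ge hb hbm K m le_rfl)
  set w : ℝ := 2 / (3 * H m) with hw
  have hw0 : 0 < w := by positivity
  have hw1 : w ≤ 1 := by
    rw [hw, div_le_one (by positivity)]
    linarith
  have h1 : 1 + (K : ℝ) * w ≤ (1 + w) ^ K := one_add_mul_le_pow (by linarith) K
  have h2 : (1 - w) ^ K * (1 + w) ^ K ≤ 1 := by
    rw [← mul_pow]
    apply pow_le_one₀
    · nlinarith
    · nlinarith
  have h3 : 1 / 30 ≤ (K : ℝ) * w := by
    rw [hw, mul_div_assoc', le_div_iff₀ (by positivity)]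
    linarith
  have h4 : 0 ≤ (1 - w) ^ K := pow_nonneg (by linarith) K
  have h5 : (1 - w) ^ K * (31 / 30) ≤ 1 := by
    refine le_trans ?_ h2
    refine mul_le_mul_of_nonneg_left ?_ h4
    linarith
  linarith

lemma H_sub_ge {a b : ℕ} (hab : b ≤ a) (ha : 0 < a) : ((a : ℝ) - b) / a ≤ H a - H b := by
  induction a, hab using Nat.le_induction with
  | base => simp
  | succ a hab ih =>
    rcases Nat.eq_zero_or_pos a with h0 | h0
    · subst h0
      have hb : b = 0 := by omega
      subst hb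
      rw [H_succ, H_zero]
      norm_num
    · have h1 := ih h0
      rw [H_succ]
      push_cast
      have ha' : (0 : ℝ) < a := by exact_mod_cast h0
      have hb' : (b : ℝ) ≤ a := by exact_mod_cast hab
      have h2 : ((a : ℝ) + 1 - b) / ((a : ℝ) + 1) ≤ ((a : ℝ) - b) / a + 1 / ((a : ℝ) + 1) := by
        have h3 : ((a : ℝ) + 1 - b) / ((a : ℝ) + 1) =
            ((a : ℝ) - b) / ((a : ℝ) + 1) + 1 / ((a : ℝ) + 1) := by
          rw [← add_div]
          ring_nf
        rw [h3]
        have h4 : ((a : ℝ) - b) / ((a : ℝ) + 1) ≤ ((a : ℝ) - b) / a := by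
          apply div_le_div_of_nonneg_left _ ha' (by linarith)
          linarith
        linarith
      linarith

lemma H_sub_le {a b : ℕ} (hab : b ≤ a) : H a - H b ≤ ((a : ℝ) - b) / ((b : ℝ) + 1) := by
  induction a, hab using Nat.le_induction with
  | base => simp
  | succ a hab ih =>
    rw [H_succ]
    push_cast
    have hb' : (b : ℝ) ≤ a := by exact_mod_cast hab
    have h1 : 1 / ((a : ℝ) + 1) ≤ 1 / ((b : ℝ) + 1) := by
      apply one_div_le_one_div_of_le (by positivity)
      linarith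
    have h2 : ((a : ℝ) + 1 - b) / ((b : ℝ) + 1) = ((a : ℝ) - b) / ((b : ℝ) + 1) + 1 / ((b : ℝ) + 1) := by
      rw [← add_div]
      ring_nf
    rw [h2]
    linarith

end Pool.Agent.K4H58.BS
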