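import Pool.Agent.K4H58.BS.Low

/-!
The mean height of the critical beta-splitting tree is at least `c H_N² + C H_N - D`, `c > 6/π²`.
-/

set_option autoImplicit false

namespace Pool.Agent.K4H58.BS

open Finset BinaryTree Pool.Agent.R982.CBS Filter Topology

lemma M_nonneg (N : ℕ) : 0 ≤ M N :=
  sum_nonneg fun t _ => mul_nonneg (treeProb_nonneg t) (Nat.cast_nonneg _)

/-- the gain of the lookahead at a balanced split -/
lemma gain {c C D : ℝ} (hc : 3 / 5 ≤ c) (hD : 0 ≤ D)
    (hA : ∀ N, 1 ≤ N → (c * H N ^ 2 + C * H N - D) - 1 / 10000 ≤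
      1 + ∑ i ∈ range N, W N i * (c * H (max i (N - 1 - i)) ^ 2 + C * H (max i (N - 1 - i)) - D))
    {N a m : ℕ} (ham : a + m + 1 = N) (ha : 9 * N ≤ 20 * a) (hle : a ≤ m) (hN : 80 ≤ N)
    (hT1 : 10 * (1 + c - C / 6) ≤ H N) (hT2 : 0 ≤ c * (H N - 3) + C) (hT3 : 20 ≤ H N)
    (hM : ∀ n < N, c * H n ^ 2 + C * H n - D ≤ M n) :
    c * H m ^ 2 + C * H m - D + H N / 1000 ≤ Q m (M a) := by
  have hc0 : 0 < c := by linarith
  set b : ℕ := 2 * m / 3 with hb
  have hb1 : 2 * m ≤ 3 * b + 2 := by omega
  have hbm : b < m := by omega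
  have hba : b < a := by omega
  set K : ℕ := ⌈H N / 20⌉₊ with hK
  have hK1 : H N / 20 ≤ K := Nat.le_ceil _
  have hK2 : (K : ℝ) < H N / 20 + 1 := Nat.ceil_lt_add_one (by linarith)
  have hHm : H m ≤ H N := H_mono (by omega)
  have hP := P_ge' hb1 hbm (K := K) (by linarith)
  have hHb : H N - 3 ≤ H b := by
    have h1 := H_sub_le (show b ≤ N by omega)
    have h2 : ((N : ℝ) - b) / ((b : ℝ) + 1) ≤ 3 := by
      rw [div_le_iff₀ (by positivity)]
      have h3 : (N : ℝ) ≤ 4 * b + 3 := by
        have : N ≤ 4 * b + 3 := by omega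
        exact_mod_cast this
      linarith
    linarith
  have hHab : 1 / 6 ≤ H a - H b := by
    refine le_trans ?_ (H_sub_ge hba.le (by omega))
    have ha0 : (0 : ℝ) < a := by
      have : 0 < a := by omega
      exact_mod_cast this
    rw [le_div_iff₀ ha0]
    have h3 : 6 * (b : ℝ) ≤ 5 * a := by
      have : 6 * b ≤ 5 * a := by omega
      exact_mod_cast this
    linarith
  have hmono : ∀ n ≤ b, c * H n ^ 2 + C * H n - D ≤ c * H b ^ 2 + C * H b - D := by
    intro n hn
    have h1 := H_mono hn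
    have h2 := H_nonneg n
    have h3 : 0 ≤ c * (H b + H n) + C := by
      have : c * (H N - 3) ≤ c * (H b + H n) := by
        apply mul_le_mul_of_nonneg_left _ hc0.le
        linarith
      linarith
    nlinarith [mul_nonneg (sub_nonneg.2 h1) h3]
  have hA0 : c * H 0 ^ 2 + C * H 0 - D ≤ 0 := by
    rw [H_zero]
    norm_num
    exact hD
  have h1 := lookahead (A := fun n => c * H n ^ 2 + C * H n - D) (δ := 1 / 10000) (by norm_num)
    hA0 hA hmono K m (M a) (fun n hn => hM n (by omega))
  refine le_trans ?_ h1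
  have hMa := hM a (by omega)
  -- the difference
  have hdiff : H N / 20 ≤ M a - K - (c * H b ^ 2 + C * H b - D) := by
    have h2 : (1 / 6) * (c * (2 * (H N - 3)) + C) ≤ (H a - H b) * (c * (H a + H b) + C) := by
      have h3 : c * (2 * (H N - 3)) + C ≤ c * (H a + H b) + C := by
        have h4 : c * (2 * (H N - 3)) ≤ c * (H a + H b) := by
          apply mul_le_mul_of_nonneg_left _ hc0.le
          linarith
        linarith
      have h5 : 0 ≤ c * (2 * (H N - 3)) + C := by
        have h6 : 0 ≤ c * (H N - 3) := mul_nonneg hc0.le (by linarith)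
        linarith
      exact mul_le_mul hHab h3 h5 (by linarith)
    have h3 : (H a - H b) * (c * (H a + H b) + C) =
        (c * H a ^ 2 + C * H a - D) - (c * H b ^ 2 + C * H b - D) := by ring
    have h4 : 3 / 5 * H N ≤ c * H N := mul_le_mul_of_nonneg_right hc (by linarith)
    nlinarith
  have hmax : H N / 20 ≤ max 0 (M a - K - (c * H b ^ 2 + C * H b - D)) :=
    hdiff.trans (le_max_right _ _)
  have hprod : 1 / 31 * (H N / 20) ≤
      P b K m * max 0 (M a - K - (c * H b ^ 2 + C * H b - D)) := by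
    apply mul_le_mul hP hmax (by linarith) (P_nonneg _ _ _)
  have h5 : 1 / 10000 * (K : ℝ) ≤ 1 / 10000 * (H N / 20 + 1) :=
    mul_le_mul_of_nonneg_left hK2.le (by norm_num)
  show c * H m ^ 2 + C * H m - D + H N / 1000 ≤
    (c * H m ^ 2 + C * H m - D) - 1 / 10000 * (K : ℝ) +
      P b K m * max 0 (M a - K - (c * H b ^ 2 + C * H b - D))
  linarith

/-- balanced splits have probability at least `1 / (10 H_N)` -/
lemma balanced {N : ℕ} (hN : 80 ≤ N) :
    1 / (10 * H N) ≤
      ∑ i ∈ range N, W N i * (if 9 * N ≤ 20 * min i (N - 1 - i) then 1 else 0) := by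
  have hH := H_pos (by omega : 1 ≤ N)
  set s : ℕ := (9 * N + 19) / 20 with hs
  have hsub : Finset.Icc s (N - 1 - s) ⊆ range N := by
    intro i hi
    rw [Finset.mem_Icc] at hi
    rw [mem_range]
    omega
  have h1 : ∑ i ∈ Finset.Icc s (N - 1 - s), 2 / (H N * ((N : ℝ) + 1)) ≤
      ∑ i ∈ range N, W N i * (if 9 * N ≤ 20 * min i (N - 1 - i) then 1 else 0) := by
    refine le_trans ?_ (sum_le_sum_of_subset_of_nonneg hsub fun i hi _ =>
      mul_nonneg (W_nonneg (mem_range.mp hi)) (by split_ifs <;> norm_num))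
    refine sum_le_sum fun i hi => ?_
    have hi' := mem_range.mp (hsub hi)
    rw [Finset.mem_Icc] at hi
    rw [if_pos, mul_one]
    · exact W_ge hi'
    · have h2 : s ≤ min i (N - 1 - i) := le_min hi.1 (by omega)
      omega
  refine le_trans ?_ h1
  rw [sum_const, Nat.card_Icc, nsmul_eq_mul]
  have h2 : (N : ℝ) + 1 ≤ 20 * ((N - 1 - s + 1 - s : ℕ) : ℝ) := by
    have : N + 1 ≤ 20 * (N - 1 - s + 1 - s) := by omega
    exact_mod_cast this
  have hNp : (0 : ℝ) < (N : ℝ) + 1 := by positivity
  calc 1 / (10 * H N) = ((N : ℝ) + 1) / 20 * (2 / (H N * ((N : ℝ) + 1))) := by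
        field_simp
        norm_num
    _ ≤ ((N - 1 - s + 1 - s : ℕ) : ℝ) * (2 / (H N * ((N : ℝ) + 1))) := by
        gcongr
        linarith

theorem lower : ∃ c C D : ℝ, 6 / Real.pi ^ 2 < c ∧ ∀ N, c * H N ^ 2 + C * H N - D ≤ M N := by
  have hpi := Real.pi_pos
  have hpi2 : Real.pi ^ 2 < 10 := by
    have := Real.pi_lt_d2
    nlinarith
  set c : ℝ := 6 * (1 + 1 / 20000) / Real.pi ^ 2 with hc
  have hc1 : 6 / Real.pi ^ 2 < c := by
    rw [hc]
    gcongr
    norm_num
  have hc2 : 3 / 5 ≤ c := by
    refine le_trans ?_ hc1.le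
    rw [le_div_iff₀ (by positivity)]
    linarith
  have hc0 : 0 < c := by linarith
  obtain ⟨C, hC, hdr⟩ := exists_C (c := c) (δ := 1 / 10000) hc0 (by norm_num) (by
    rw [hc]
    field_simp
    norm_num)
  obtain ⟨N1, hN1⟩ := eventually_atTop.mp ((H_tendsto_atTop.eventually
    (eventually_ge_atTop (10 * (1 + c - C / 6) + (3 - C / c) + 20))).and
    (eventually_ge_atTop 80))
  set D : ℝ := c * H N1 ^ 2 with hD
  have hD0 : 0 ≤ D := by positivity
  refine ⟨c, C, D, hc1, ?_⟩
  have hA : ∀ N, 1 ≤ N → (c * H N ^ 2 + C * H N - D) - 1 / 10000 ≤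
      1 + ∑ i ∈ range N, W N i * (c * H (max i (N - 1 - i)) ^ 2 + C * H (max i (N - 1 - i)) - D) := by
    intro N hN
    have h1 := hdr N hN
    have h2 : ∑ i ∈ range N, W N i * (c * H (max i (N - 1 - i)) ^ 2 + C * H (max i (N - 1 - i)) - D)
        = ∑ i ∈ range N, W N i * (c * H (max i (N - 1 - i)) ^ 2 + C * H (max i (N - 1 - i))) - D := by
      have h3 : D = ∑ i ∈ range N, W N i * D := by rw [← sum_mul, W_sum N hN, one_mul]
      conv_rhs => rw [h3]
      rw [← sum_sub_distrib]
      exact sum_congr rfl fun i _ => by ring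
    rw [h2]
    linarith
  intro N
  induction N using Nat.strong_induction_on with
  | _ N ih =>
    by_cases hN : N < N1
    · refine le_trans ?_ (M_nonneg N)
      have h1 := H_mono hN.le
      have h2 := H_nonneg N
      have h3 : c * H N ^ 2 ≤ D := by
        rw [hD]
        gcongr
      have h4 : C * H N ≤ 0 := mul_nonpos_of_nonpos_of_nonneg hC h2
      linarith
    · push Not at hN
      obtain ⟨hT, hN80⟩ := hN1 N hN
      have e1 : 0 ≤ -(C / 6) := by linarith
      have e2 : 0 ≤ -(C / c) := by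
        rw [neg_nonneg]
        exact div_nonpos_of_nonpos_of_nonneg hC hc0.le
      have hT1 : 10 * (1 + c - C / 6) ≤ H N := by linarith
      have hT2 : 0 ≤ c * (H N - 3) + C := by
        have h1 : -(C / c) ≤ H N - 3 := by linarith
        have h2 := mul_le_mul_of_nonneg_left h1 hc0.le
        have h3 : c * -(C / c) = -C := by field_simp
        linarith
      have hT3 : 20 ≤ H N := by linarith
      rw [M_rec N (by omega)]
      have hterm : ∑ i ∈ range N, W N i * ((c * H (max i (N - 1 - i)) ^ 2 +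
          C * H (max i (N - 1 - i)) - D) + H N / 1000 *
            (if 9 * N ≤ 20 * min i (N - 1 - i) then 1 else 0)) ≤
          ∑ i ∈ range N, W N i * E2 i (N - 1 - i) := by
        refine sum_le_sum fun i hi => ?_
        have hi' := mem_range.mp hi
        refine mul_le_mul_of_nonneg_left ?_ (W_nonneg hi')
        refine le_trans ?_ (Q_max_le_E2 i (N - 1 - i))
        split_ifs with h
        · rw [mul_one]
          exact gain hc2 hD0 hA (a := min i (N - 1 - i)) (m := max i (N - 1 - i)) (by omega) h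
            (by omega) hN80 hT1 hT2 hT3 ih
        · rw [mul_zero, add_zero]
          exact (ih _ (by omega)).trans (M_le_Q _ _)
      have hsplit : ∑ i ∈ range N, W N i * ((c * H (max i (N - 1 - i)) ^ 2 +
          C * H (max i (N - 1 - i)) - D) + H N / 1000 *
            (if 9 * N ≤ 20 * min i (N - 1 - i) then 1 else 0)) =
          ∑ i ∈ range N, W N i * (c * H (max i (N - 1 - i)) ^ 2 +
            C * H (max i (N - 1 - i)) - D) + H N / 1000 *
          ∑ i ∈ range N, W N i * (if 9 * N ≤ 20 * min i (N - 1 - i) then 1 else 0) := by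
        rw [mul_sum, ← sum_add_distrib]
        exact sum_congr rfl fun i _ => by ring
      have hbal := balanced hN80
      have hHpos : 0 < H N := by linarith
      have h5 : 1 / 10000 ≤ H N / 1000 *
          ∑ i ∈ range N, W N i * (if 9 * N ≤ 20 * min i (N - 1 - i) then 1 else 0) := by
        have h6 := mul_le_mul_of_nonneg_left hbal (by positivity : 0 ≤ H N / 1000)
        refine le_trans (le_of_eq ?_) h6
        field_simp
        norm_num
      have h7 := hA N (by omega)
      linarith

end Pool.Agent.K4H58.BS
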