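import Pool.Agent.R982.CBSTree

/-!
The height of the critical beta-splitting tree: recursions and the lookahead inequality.
-/

set_option autoImplicit false

namespace Pool.Agent.K4H58.BS

open Finset BinaryTree Pool.Agent.R982.CBS

lemma q_nonneg (a b : ℕ) : 0 ≤ q (a + b) a := by
  unfold q
  rw [H_eq_harmonic]
  have h1 := H_nonneg (a + b - 1)
  have h2 : ((a + b : ℕ) : ℝ) - a = b := by push_cast; ring
  rw [h2]
  positivity

lemma treeProb_nonneg (t : BinaryTree Unit) : 0 ≤ treeProb t := by
  induction t with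
  | nil => simp [treeProb]
  | node a l r hl hr =>
    rw [treeProb]
    exact mul_nonneg (q_nonneg _ _) (mul_nonneg hl hr)

/-- mean height of a tree with `N` splits -/
noncomputable def M (N : ℕ) : ℝ := ∑ t ∈ treesOfNumNodesEq N, treeProb t * (t.height : ℝ)

/-- mean of the maximum of the height and `x` -/
noncomputable def Q (N : ℕ) (x : ℝ) : ℝ :=
  ∑ t ∈ treesOfNumNodesEq N, treeProb t * max (t.height : ℝ) x

/-- mean of the larger of two independent heights -/
noncomputable def E2 (i j : ℕ) : ℝ :=
  ∑ l ∈ treesOfNumNodesEq i, ∑ r ∈ treesOfNumNodesEq j,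
    treeProb l * treeProb r * max (l.height : ℝ) (r.height : ℝ)

lemma M_zero : M 0 = 0 := by simp [M]

lemma Q_zero (x : ℝ) : Q 0 x = max 0 x := by simp [Q, treeProb]

lemma M_le_Q (N : ℕ) (x : ℝ) : M N ≤ Q N x := by
  unfold M Q
  exact sum_le_sum fun t _ => mul_le_mul_of_nonneg_left (le_max_left _ _) (treeProb_nonneg t)

lemma le_Q (N : ℕ) (x : ℝ) : x ≤ Q N x := by
  have h : ∑ t ∈ treesOfNumNodesEq N, treeProb t * x = x := by
    rw [← sum_mul, total_mass, one_mul]
  conv_lhs => rw [← h]
  unfold Q
  exact sum_le_sum fun t _ => mul_le_mul_of_nonneg_left (le_max_right _ _) (treeProb_nonneg t)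

lemma Q_le_E2 (i j : ℕ) : Q j (M i) ≤ E2 i j := by
  unfold E2
  rw [sum_comm]
  unfold Q
  refine sum_le_sum fun r _ => ?_
  have h1 : ∑ l ∈ treesOfNumNodesEq i, treeProb l * treeProb r * max (l.height : ℝ) (r.height : ℝ)
      = treeProb r * ∑ l ∈ treesOfNumNodesEq i, treeProb l * max (l.height : ℝ) (r.height : ℝ) := by
    rw [mul_sum]
    exact sum_congr rfl fun l _ => by ring
  rw [h1]
  refine mul_le_mul_of_nonneg_left ?_ (treeProb_nonneg r)
  exact max_le (le_Q i _) (M_le_Q i _)

lemma E2_comm (i j : ℕ) : E2 i j = E2 j i := by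
  unfold E2
  rw [sum_comm]
  refine sum_congr rfl fun r _ => sum_congr rfl fun l _ => ?_
  rw [max_comm]
  ring

lemma Q_le_E2' (i j : ℕ) : Q i (M j) ≤ E2 i j := by
  rw [E2_comm]
  exact Q_le_E2 j i

lemma Q_max_le_E2 (i j : ℕ) : Q (max i j) (M (min i j)) ≤ E2 i j := by
  rcases le_total i j with h | h
  · rw [max_eq_right h, min_eq_left h]
    exact Q_le_E2 i j
  · rw [max_eq_left h, min_eq_right h]
    exact Q_le_E2' i j

lemma M_rec (N : ℕ) (hN : 1 ≤ N) : M N = 1 + ∑ i ∈ range N, W N i * E2 i (N - 1 - i) := by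
  have hone : 1 + ∑ i ∈ range N, W N i * E2 i (N - 1 - i)
      = ∑ i ∈ range N, W N i + ∑ i ∈ range N, W N i * E2 i (N - 1 - i) := by
    rw [W_sum N hN]
  rw [hone, M, sum_succ N hN, ← sum_add_distrib]
  refine sum_congr rfl fun i _ => ?_
  have h1 : ∑ l ∈ treesOfNumNodesEq i, ∑ r ∈ treesOfNumNodesEq (N - 1 - i),
      treeProb l * treeProb r * (((BinaryTree.node () l r).height : ℕ) : ℝ)
      = 1 + E2 i (N - 1 - i) := by
    rw [E2, ← sum_one (i := i) (j := N - 1 - i), ← sum_add_distrib]
    refine sum_congr rfl fun l _ => ?_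
    rw [← sum_add_distrib]
    refine sum_congr rfl fun r _ => ?_
    rw [BinaryTree.height]
    push_cast
    ring
  rw [h1]
  ring

lemma Q_rec (N : ℕ) (hN : 1 ≤ N) (x : ℝ) :
    1 + ∑ i ∈ range N, W N i * Q (max i (N - 1 - i)) (x - 1) ≤ Q N x := by
  obtain ⟨y, hy⟩ : ∃ y : ℝ, y = x - 1 := ⟨_, rfl⟩
  rw [← hy]
  have hone : 1 + ∑ i ∈ range N, W N i * Q (max i (N - 1 - i)) y
      = ∑ i ∈ range N, W N i + ∑ i ∈ range N, W N i * Q (max i (N - 1 - i)) y := by
    rw [W_sum N hN]
  rw [hone, Q, sum_succ N hN, ← sum_add_distrib]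
  refine sum_le_sum fun i hi => ?_
  have hi' := mem_range.mp hi
  have hWn := W_nonneg hi'
  have h1 : 1 + Q (max i (N - 1 - i)) y ≤
      ∑ l ∈ treesOfNumNodesEq i, ∑ r ∈ treesOfNumNodesEq (N - 1 - i),
        treeProb l * treeProb r * max (((BinaryTree.node () l r).height : ℕ) : ℝ) x := by
    have hh : ∀ l r : BinaryTree Unit, (((BinaryTree.node () l r).height : ℕ) : ℝ) =
        max (l.height : ℝ) (r.height : ℝ) + 1 := by
      intro l r
      rw [BinaryTree.height]
      push_cast
      rfl
    rcases le_total i (N - 1 - i) with h | h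
    · rw [max_eq_right h, Q, ← sum_right (i := i) (j := N - 1 - i),
        ← sum_one (i := i) (j := N - 1 - i), ← sum_add_distrib]
      refine sum_le_sum fun l _ => ?_
      rw [← sum_add_distrib]
      refine sum_le_sum fun r _ => ?_
      rw [hh]
      have h2 : 1 + max (r.height : ℝ) y ≤ max (max (l.height : ℝ) (r.height : ℝ) + 1) x := by
        rcases le_total (r.height : ℝ) y with h3 | h3
        · rw [max_eq_right h3]
          exact le_trans (by linarith) (le_max_right _ x)
        · rw [max_eq_left h3]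
          refine le_trans ?_ (le_max_left _ _)
          have := le_max_right (l.height : ℝ) (r.height : ℝ)
          linarith
      have h3 := mul_le_mul_of_nonneg_left h2
        (mul_nonneg (treeProb_nonneg l) (treeProb_nonneg r))
      linarith
    · rw [max_eq_left h, Q, ← sum_left (j := N - 1 - i),
        ← sum_one (i := i) (j := N - 1 - i), ← sum_add_distrib]
      refine sum_le_sum fun l _ => ?_
      rw [← sum_add_distrib]
      refine sum_le_sum fun r _ => ?_
      rw [hh]
      have h2 : 1 + max (l.height : ℝ) y ≤ max (max (l.height : ℝ) (r.height : ℝ) + 1) x := by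
        rcases le_total (l.height : ℝ) y with h3 | h3
        · rw [max_eq_right h3]
          exact le_trans (by linarith) (le_max_right _ x)
        · rw [max_eq_left h3]
          refine le_trans ?_ (le_max_left _ _)
          have := le_max_left (l.height : ℝ) (r.height : ℝ)
          linarith
      have h3 := mul_le_mul_of_nonneg_left h2
        (mul_nonneg (treeProb_nonneg l) (treeProb_nonneg r))
      linarith
  have h4 := mul_le_mul_of_nonneg_left h1 hWn
  linarith

/-- probability that the greedy chain is at most `b` after `K` steps -/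
noncomputable def P (b : ℕ) : ℕ → ℕ → ℝ
  | 0, N => if N ≤ b then 1 else 0
  | K + 1, N => if N ≤ b then 1 else ∑ i ∈ range N, W N i * P b K (max i (N - 1 - i))

lemma P_nonneg (b K N : ℕ) : 0 ≤ P b K N := by
  induction K generalizing N with
  | zero => rw [P]; split_ifs <;> norm_num
  | succ K ih =>
    rw [P]
    split_ifs
    · norm_num
    · exact sum_nonneg fun i hi => mul_nonneg (W_nonneg (mem_range.mp hi)) (ih _)

lemma P_of_le {b K N : ℕ} (h : N ≤ b) : P b K N = 1 := by
  cases K <;> rw [P, if_pos h]

/-- **lookahead**: `K` steps of the greedy chain, with the option to switch to `x` -/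
lemma lookahead {A : ℕ → ℝ} {δ : ℝ} (hδ : 0 ≤ δ) (hA0 : A 0 ≤ 0)
    (hA : ∀ N, 1 ≤ N → A N - δ ≤ 1 + ∑ i ∈ range N, W N i * A (max i (N - 1 - i)))
    {b : ℕ} (hb : ∀ N ≤ b, A N ≤ A b) (K : ℕ) : ∀ (N : ℕ) (x : ℝ), (∀ n ≤ N, A n ≤ M n) →
    A N - δ * K + P b K N * max 0 (x - K - A b) ≤ Q N x := by
  induction K with
  | zero =>
    intro N x hM
    have h1 := (hM N le_rfl).trans (M_le_Q N x)
    have h2 := le_Q N x
    rw [P]
    split_ifs with h
    · have h3 := hb N h
      push_cast
      rcases le_total 0 (x - 0 - A b) with h4 | h4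
      · rw [max_eq_right h4]
        linarith
      · rw [max_eq_left h4]
        linarith
    · push_cast
      linarith
  | succ K ih =>
    intro N x hM
    rcases Nat.eq_zero_or_pos N with h0 | hN
    · subst h0
      rw [P_of_le (Nat.zero_le b), Q_zero]
      have h3 := hb 0 (Nat.zero_le b)
      have h4 : (0 : ℝ) ≤ (K + 1 : ℕ) := Nat.cast_nonneg _
      have h5 := mul_nonneg hδ h4
      rcases le_total 0 (x - (K + 1 : ℕ) - A b) with h6 | h6
      · rw [max_eq_right h6]
        refine le_trans ?_ (le_max_right _ _)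
        linarith
      · rw [max_eq_left h6]
        refine le_trans ?_ (le_max_left _ _)
        linarith
    · by_cases hNb : N ≤ b
      · rw [P_of_le hNb]
        have h1 := (hM N le_rfl).trans (M_le_Q N x)
        have h2 := le_Q N x
        have h3 := hb N hNb
        have h4 : (0 : ℝ) ≤ (K + 1 : ℕ) := Nat.cast_nonneg _
        have h5 := mul_nonneg hδ h4
        rcases le_total 0 (x - (K + 1 : ℕ) - A b) with h6 | h6
        · rw [max_eq_right h6]
          linarith
        · rw [max_eq_left h6]
          linarith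
      · refine le_trans ?_ (Q_rec N hN x)
        rw [P, if_neg hNb]
        set y : ℝ := max 0 (x - (K + 1 : ℕ) - A b) with hy
        have h1 : ∑ i ∈ range N, W N i * (A (max i (N - 1 - i)) - δ * K +
            P b K (max i (N - 1 - i)) * y) ≤
            ∑ i ∈ range N, W N i * Q (max i (N - 1 - i)) (x - 1) := by
          refine sum_le_sum fun i hi => ?_
          have hi' := mem_range.mp hi
          refine mul_le_mul_of_nonneg_left ?_ (W_nonneg hi')
          have h2 := ih (max i (N - 1 - i)) (x - 1) (fun n hn => hM n (by omega))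
          have h3 : x - 1 - (K : ℝ) - A b = x - (K + 1 : ℕ) - A b := by push_cast; ring
          rw [h3] at h2
          exact h2
        have h2 : ∑ i ∈ range N, W N i * (A (max i (N - 1 - i)) - δ * K +
            P b K (max i (N - 1 - i)) * y) =
            ∑ i ∈ range N, W N i * A (max i (N - 1 - i)) - δ * K +
              (∑ i ∈ range N, W N i * P b K (max i (N - 1 - i))) * y := by
          have h3 : δ * (K : ℝ) = ∑ i ∈ range N, W N i * (δ * K) := by
            rw [← sum_mul, W_sum N hN, one_mul]
          conv_rhs => rw [h3]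
          rw [sum_mul, ← sum_sub_distrib, ← sum_add_distrib]
          exact sum_congr rfl fun i _ => by ring
        have h3 := hA N hN
        push_cast
        linarith

end Pool.Agent.K4H58.BS
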