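import Pool.Agent.K4H58.BS.Rec

/-!
The mean height of the critical beta-splitting tree is at most `6 H_N²`.
-/

set_option autoImplicit false

namespace Pool.Agent.K4H58.BS

open Finset BinaryTree Pool.Agent.R982.CBS Filter Topology

/-- exponential moment of the height -/
noncomputable def Z (θ : ℝ) (N : ℕ) : ℝ :=
  ∑ t ∈ treesOfNumNodesEq N, treeProb t * θ ^ t.height

lemma Z_rec {θ : ℝ} (hθ : 1 ≤ θ) (N : ℕ) (hN : 1 ≤ N) :
    Z θ N ≤ θ * ∑ i ∈ range N, W N i * (Z θ i + Z θ (N - 1 - i)) := by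
  rw [Z, sum_succ N hN, mul_sum]
  refine sum_le_sum fun i hi => ?_
  have hWn := W_nonneg (mem_range.mp hi)
  have h1 : ∑ l ∈ treesOfNumNodesEq i, ∑ r ∈ treesOfNumNodesEq (N - 1 - i),
      treeProb l * treeProb r * θ ^ (BinaryTree.node () l r).height ≤
      θ * (Z θ i + Z θ (N - 1 - i)) := by
    rw [mul_add, Z, Z, ← sum_left (j := N - 1 - i), ← sum_right (i := i) (j := N - 1 - i),
      mul_sum, mul_sum, ← sum_add_distrib]
    refine sum_le_sum fun l _ => ?_
    rw [mul_sum, mul_sum, ← sum_add_distrib]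
    refine sum_le_sum fun r _ => ?_
    have hp := mul_nonneg (treeProb_nonneg l) (treeProb_nonneg r)
    have h2 : θ ^ (BinaryTree.node () l r).height ≤ θ * (θ ^ l.height + θ ^ r.height) := by
      have hθ0 : 0 ≤ θ := by linarith
      rw [BinaryTree.height, pow_succ, mul_comm]
      refine mul_le_mul_of_nonneg_left ?_ hθ0
      rcases le_total l.height r.height with h | h
      · rw [max_eq_right h]
        have := pow_nonneg hθ0 l.height
        linarith
      · rw [max_eq_left h]
        have := pow_nonneg hθ0 r.height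
        linarith
    have h3 := mul_le_mul_of_nonneg_left h2 hp
    linarith
  have h2 := mul_le_mul_of_nonneg_left h1 hWn
  linarith

lemma W_sq (N : ℕ) (hN : 1 ≤ N) :
    ∑ i ∈ range N, W N i * (((i : ℝ) + 1) ^ 2 + ((N : ℝ) - i) ^ 2) =
      ((N : ℝ) + 1) ^ 2 - N * ((N : ℝ) + 1) / H N := by
  have hH := H_pos hN
  have h1 : ∑ i ∈ range N, W N i * (((i : ℝ) + 1) ^ 2 + ((N : ℝ) - i) ^ 2) =
      ∑ i ∈ range N, (W N i * ((N : ℝ) + 1) ^ 2 - ((N : ℝ) + 1) / H N) := by
    refine sum_congr rfl fun i hi => ?_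
    have hi' := mem_range.mp hi
    have h5 : (0 : ℝ) < (N : ℝ) - i := by
      have : (i : ℝ) < N := by exact_mod_cast hi'
      linarith
    have h6 : (0 : ℝ) < (i : ℝ) + 1 := by positivity
    unfold W
    field_simp
    ring
  rw [h1, sum_sub_distrib, ← sum_mul, W_sum N hN, sum_const, card_range, nsmul_eq_mul]
  ring

lemma Z_le {N0 : ℕ} (hN0 : 1 ≤ N0) : ∀ N, N ≤ N0 →
    Z (1 + 1 / (2 * H N0)) N ≤ ((N : ℝ) + 1) ^ 2 := by
  intro N
  have hH0 := H_one_le hN0
  set θ : ℝ := 1 + 1 / (2 * H N0) with hθ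
  have hθ1 : 1 ≤ θ := by
    rw [hθ]
    have : 0 ≤ 1 / (2 * H N0) := by positivity
    linarith
  induction N using Nat.strong_induction_on with
  | _ N ih =>
    intro hN
    rcases Nat.eq_zero_or_pos N with h0 | h0
    · subst h0
      simp [Z, treeProb]
    · have hH := H_pos h0
      have h1 : ∑ i ∈ range N, W N i * (Z θ i + Z θ (N - 1 - i)) ≤
          ((N : ℝ) + 1) ^ 2 - N * ((N : ℝ) + 1) / H N := by
        rw [← W_sq N h0]
        refine sum_le_sum fun i hi => ?_
        have hi' := mem_range.mp hi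
        refine mul_le_mul_of_nonneg_left ?_ (W_nonneg hi')
        have h2 := ih i hi' (by omega)
        have h3 := ih (N - 1 - i) (by omega) (by omega)
        have h4 : ((N - 1 - i : ℕ) : ℝ) + 1 = (N : ℝ) - i := by
          rw [Nat.cast_sub (by omega), Nat.cast_sub (by omega)]
          push_cast
          ring
        rw [h4] at h3
        linarith
      refine (Z_rec hθ1 N h0).trans ?_
      have h2 := mul_le_mul_of_nonneg_left h1 (by linarith : 0 ≤ θ)
      refine h2.trans ?_
      have hHle : H N ≤ H N0 := H_mono hN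
      have hNr : (1 : ℝ) ≤ N := by exact_mod_cast h0
      -- `N (N+1) / H N ≥ (N+1)^2 / (2 H N0)`
      have h3 : ((N : ℝ) + 1) ^ 2 / (2 * H N0) ≤ N * ((N : ℝ) + 1) / H N := by
        rw [div_le_div_iff₀ (by positivity) hH]
        have h4 : ((N : ℝ) + 1) ^ 2 ≤ 2 * (N * ((N : ℝ) + 1)) := by nlinarith
        calc ((N : ℝ) + 1) ^ 2 * H N ≤ (2 * (N * ((N : ℝ) + 1))) * H N0 :=
              mul_le_mul h4 hHle hH.le (by positivity)
          _ = N * ((N : ℝ) + 1) * (2 * H N0) := by ring
      have h5 : θ * (((N : ℝ) + 1) ^ 2 - N * ((N : ℝ) + 1) / H N) ≤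
          θ * (((N : ℝ) + 1) ^ 2 - ((N : ℝ) + 1) ^ 2 / (2 * H N0)) :=
        mul_le_mul_of_nonneg_left (by linarith) (by linarith)
      refine h5.trans ?_
      have h6 : θ * (((N : ℝ) + 1) ^ 2 - ((N : ℝ) + 1) ^ 2 / (2 * H N0)) =
          ((N : ℝ) + 1) ^ 2 * (1 - (1 / (2 * H N0)) ^ 2) := by
        rw [hθ]
        ring
      rw [h6]
      have h7 : 0 ≤ (1 / (2 * H N0)) ^ 2 := sq_nonneg _
      have h8 : 0 ≤ ((N : ℝ) + 1) ^ 2 := sq_nonneg _
      nlinarith

theorem upper {N : ℕ} (hN : 1 ≤ N) : M N ≤ 6 * H N ^ 2 := by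
  have hH := H_one_le hN
  set θ : ℝ := 1 + 1 / (2 * H N) with hθ
  have hθ0 : 0 < θ := by
    rw [hθ]
    positivity
  have hlog : 1 / (2 * H N + 1) ≤ Real.log θ := by
    refine le_trans (le_of_eq ?_) (Real.one_sub_inv_le_log_of_pos hθ0)
    rw [hθ]
    field_simp
    ring
  have hlog0 : 0 < Real.log θ := lt_of_lt_of_le (by positivity) hlog
  have h1 : Real.exp (Real.log θ * M N) ≤ Z θ N := by
    have h2 : ∀ t : BinaryTree Unit, treeProb t * (Real.exp (Real.log θ * M N) *
        (1 + Real.log θ * (t.height - M N))) ≤ treeProb t * θ ^ t.height := by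
      intro t
      refine mul_le_mul_of_nonneg_left ?_ (treeProb_nonneg t)
      have h3 : θ ^ t.height = Real.exp (Real.log θ * M N) *
          Real.exp (Real.log θ * (t.height - M N)) := by
        rw [← Real.exp_add, ← mul_add, add_sub_cancel, mul_comm, Real.exp_nat_mul,
          Real.exp_log hθ0]
      rw [h3]
      refine mul_le_mul_of_nonneg_left ?_ (Real.exp_pos _).le
      have := Real.add_one_le_exp (Real.log θ * (t.height - M N))
      linarith
    have h4 : ∑ t ∈ treesOfNumNodesEq N, treeProb t * (Real.exp (Real.log θ * M N) *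
        (1 + Real.log θ * (t.height - M N))) = Real.exp (Real.log θ * M N) := by
      have h5 : ∑ t ∈ treesOfNumNodesEq N, treeProb t * (Real.exp (Real.log θ * M N) *
          (1 + Real.log θ * (t.height - M N))) =
          Real.exp (Real.log θ * M N) * ((1 - Real.log θ * M N) *
            ∑ t ∈ treesOfNumNodesEq N, treeProb t + Real.log θ * M N) := by
        conv_rhs => rw [show Real.log θ * M N = Real.log θ *
          ∑ t ∈ treesOfNumNodesEq N, treeProb t * (t.height : ℝ) from rfl]
        rw [← M]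
        rw [mul_sum, mul_add, mul_sum]
        conv_rhs => rw [show Real.exp (Real.log θ * M N) * (Real.log θ * M N) =
          ∑ t ∈ treesOfNumNodesEq N, Real.exp (Real.log θ * M N) * (Real.log θ *
            (treeProb t * (t.height : ℝ))) from by rw [← mul_sum, ← mul_sum]; rfl]
        rw [← sum_add_distrib]
        exact sum_congr rfl fun t _ => by ring
      rw [h5, total_mass]
      ring
    rw [← h4]
    unfold Z
    exact sum_le_sum fun t _ => h2 t
  have h2 := h1.trans (Z_le hN N le_rfl)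
  have hN1 : (0 : ℝ) < (N : ℝ) + 1 := by positivity
  have h3 : Real.log θ * M N ≤ 2 * Real.log ((N : ℝ) + 1) := by
    have h4 := Real.log_le_log (Real.exp_pos _) h2
    rw [Real.log_exp, Real.log_pow] at h4
    push_cast at h4
    exact h4
  have h4 : Real.log ((N : ℝ) + 1) ≤ H N := by
    have h5 := log_add_one_le_harmonic N
    rw [H_eq_harmonic] at h5
    push_cast at h5
    exact h5
  have hM : 0 ≤ M N := sum_nonneg fun t _ => mul_nonneg (treeProb_nonneg t) (Nat.cast_nonneg _)
  have h5 : 1 / (2 * H N + 1) * M N ≤ 2 * H N := by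
    have := mul_le_mul_of_nonneg_right hlog hM
    linarith
  rw [div_mul_eq_mul_div, one_mul, div_le_iff₀ (by positivity)] at h5
  nlinarith

end Pool.Agent.K4H58.BS
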